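import Pool.Agent.Helper64_BEG.Ben
import Pool.Agent.Helper61_BEN.WXC
import Pool.Agent.Helper71_BEG.MGP
import Pool.Agent.Helper79_BEG.TGT
import Pool.Agent.Helper29_BEG.THG
import Pool.Agent.Helper46_BEG.WEG
import Pool.Agent.Helper4_BEG.UNQ
import Pool.Agent.Helper35_BEG.KSY
import Pool.Agent.Helper96_BEG.SBK
import Pool.Agent.Helper62_BEG.TXK
import Pool.Agent.Helper19_BEG.SLK
import Pool.Agent.Helper59_BEG.MAK
import Pool.Agent.Helper23_BEG.FKN
import Pool.Agent.Helper66_BEG.FGG
import Pool.Agent.Helper29_BEG.ALK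
import Pool.Agent.Helper29_BEG.WVK
import Pool.Agent.Helper19_BEG.FNX
import Pool.Agent.Helper81_BEG.FGX

/-!
# Squads BEN and BEG (MP_be01ff_an): all rows together.

`uni`, `fnn`, `fng`: Theorem F of squad BEF in every dimension `d ≥ 2`.
`fkn`, `fgg`: Theorem F in a closed invariant subspace, and for the functions that are invariant under a
set of isometries of the domain, in every dimension `d ≥ 2`.
`fnx`, `fgx`: the explicit form, `d = 2, 3`.
-/

set_option autoImplicit false

namespace Pool.Agent.BEG.All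

open Pool.Agent.BEG

theorem wxc : Pool.Agent.BEN.WxcStmt :=
  Pool.Agent.BEN.H61.wxc Ben.qef Ben.spq Ben.rpq

/-- Squad BEN: the uniform theorem. -/
theorem uni : Pool.Agent.BEN.UniStmt := Ben.uni wxc

/-- Squad BEN: finitely many conditions. -/
theorem fnn : Pool.Agent.BEN.FnnStmt := Ben.fnn wxc

/-- Squad BEN: Theorem F in every dimension. -/
theorem fng : Pool.Agent.BEN.FngStmt := Ben.fng wxc

theorem mgp : MgpStmt := H71.mgp
theorem tgt : TgtStmt := H79.tgt
theorem thg : ThgStmt := H29.thg mgp tgt
theorem weg : WegStmt := H46.weg mgp tgt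
theorem unq : UnqStmt := H4.unq

/-- The subspace of the invariant functions. -/
theorem ksy : KsyStmt := H35.ksy mgp thg weg unq

theorem sbk : SbkStmt := H96.sbk
theorem txk : TxkStmt := H62.txk
theorem slk : SlkStmt := H19.slk Ben.bts Pool.Agent.BEF.H62.frm Pool.Agent.BE01.H69.fre
theorem mak : MakStmt := H59.mak Ben.asn Ben.tmn Ben.jst Ben.sol Ben.fne Ben.nex txk

/-- Theorem F in a subspace, every dimension. -/
theorem fkn : FknStmt := H23.fkn wxc sbk slk mak

/-- Theorem F with symmetries, every dimension. -/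
theorem fgg : FggStmt := H66.fgg ksy fkn

theorem alk : AlkStmt := H29.alk
theorem wvk : WvkStmt := H29.wvk alk

/-- The explicit form in a subspace, `d = 2, 3`. -/
theorem fnx : FnxStmt := H19.fnx wvk Pool.Agent.BE01.H69.fre Pool.Agent.Helper70BE01All.scl

/-- The explicit form with symmetries, `d = 2, 3`. -/
theorem fgx : FgxStmt := H81.fgx ksy fnx

end Pool.Agent.BEG.All
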