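import Pool.Agent.Helper93_BEF.Fin
import Pool.Agent.Helper27_BEN.QPX
import Pool.Agent.Helper6_BEN.REX
import Pool.Agent.Helper30_BEN.BAX
import Pool.Agent.Helper77_BEN.STX
import Pool.Agent.Helper19_BEN.APN
import Pool.Agent.Helper79_BEN.NEX
import Pool.Agent.Helper67_BEN.NEO
import Pool.Agent.Helper11_BEN.LDN
import Pool.Agent.Helper60_BEN.LEN
import Pool.Agent.Helper23_BEN.ASN
import Pool.Agent.Helper64_BEN.LIX
import Pool.Agent.Helper95_BEN.POJ
import Pool.Agent.Helper89_BEN.FXJ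
import Pool.Agent.Helper69_BEN.NLJ
import Pool.Agent.Helper81_BEN.TMN
import Pool.Agent.Helper21_BEN.QEF
import Pool.Agent.Helper4_BEN.HLD
import Pool.Agent.Helper79_BEN.INQ
import Pool.Agent.Helper58_BEN.PRL
import Pool.Agent.Helper85_BEN.JMU
import Pool.Agent.Helper67_BEN.CUM
import Pool.Agent.Helper40_BEN.CUA
import Pool.Agent.Helper14_BEN.JLF
import Pool.Agent.Helper12_BEN.JST
import Pool.Agent.Helper96_BEN.SOL
import Pool.Agent.Helper3_BEN.SBU
import Pool.Agent.Helper89_BEN.LVU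
import Pool.Agent.Helper9_BEN.STL
import Pool.Agent.Helper17_BEN.LPB
import Pool.Agent.Helper17_BEN.SPQ
import Pool.Agent.Helper95_BEN.RPQ
import Pool.Agent.Helper35_BEN.BTS
import Pool.Agent.Helper15_BEN.SLX
import Pool.Agent.Helper52_BEN.SLO
import Pool.Agent.Helper86_BEN.FNE
import Pool.Agent.Helper24_BEN.MAI
import Pool.Agent.Helper39_BEN.UNI
import Pool.Agent.Helper23_BEN.FNN
import Pool.Agent.Helper98_BEN.FNG

/-!
# Squad BEN (MP_be01ff_an): all rows but WXC together.
-/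

set_option autoImplicit false

namespace Pool.Agent.BEG.Ben

open Pool.Agent.BEN Pool.Agent.BEF

theorem qpx : QpxStmt := H27.qpx
theorem rex : RexStmt := Pool.Agent.BEN.H6.rex
theorem bax : BaxStmt := H30.bax H24.gli H52.gdv BEF.Fin.dfl qpx BEF.Fin.gpw
theorem stx : StxStmt := H77.stx H5.gpr H24.gli H52.gdv BEF.Fin.dfl BEF.Fin.gpw qpx rex
theorem apn : ApnStmt := H19.apn H24.gli bax stx
theorem nex : NexStmt := H79.nex
theorem neo : NeoStmt := Pool.Agent.BEN.H67.neo
theorem ldn : LdnStmt := H11.ldn H24.gli H52.gdv BEF.Fin.dfl H5.gbd qpx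
theorem len : LenStmt := H60.len H24.gli H52.gdv BEF.Fin.dfl H5.gbd qpx
theorem asn : AsnStmt := H23.asn H24.gli H52.gdv BEF.Fin.dfl H43.cha H5.gbd apn BEF.Fin.trz ldn len
theorem lix : LixStmt := Pool.Agent.BEN.H64.lix Helper70BE01All.lia Helper70BE01All.lib
theorem nlj : NljStmt := H69.nlj H95.poj H89.fxj
theorem tmn : TmnStmt := H81.tmn lix nlj
theorem qef : QefStmt := H21.qef
theorem hld : HldStmt := H4.hld
theorem inq : InqStmt := H79.inq
theorem prl : PrlStmt := H58.prl
theorem jmu : JmuStmt := H85.jmu qef hld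
theorem cum : CumStmt := Pool.Agent.BEN.H67.cum qef hld inq prl
theorem cua : CuaStmt := H40.cua
theorem jlf : JlfStmt := H14.jlf qef inq
theorem jst : JstStmt := H12.jst qef inq jmu cum cua
theorem sol : SolStmt := H96.sol Helper70BE01All.lia lix qef inq jlf
theorem lvu : LvuStmt := H89.lvu qef H3.sbu
theorem spq : SpqStmt := H17.spq qef lvu H9.stl H17.lpb
theorem rpq : RpqStmt := H95.rpq qef H3.sbu
theorem bts : BtsStmt := H35.bts qef
theorem slx : SlxStmt := H15.slx bts H62.frm Pool.Agent.BE01.H69.fre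
theorem slo : SloStmt := H52.slo bts Pool.Agent.BE01.H69.fre
theorem fne : FneStmt := H86.fne
theorem mai : MaiStmt := H24.mai asn tmn jst sol fne
theorem uni (wxc : WxcStmt) : UniStmt := H39.uni wxc mai slo neo
theorem fnn (wxc : WxcStmt) : FnnStmt := H23.fnn wxc mai slx nex
theorem fng (wxc : WxcStmt) : FngStmt := H98.fng (fnn wxc)

end Pool.Agent.BEG.Ben
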