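import Pool.Agent.Helper64_BEG.All
import Pool.Agent.Helper70_BE01.Conv

/-!
# Squad BEG (MP_be01ff_an): Theorem F with symmetries, formulated with functions
-/

set_option autoImplicit false

namespace Pool.Agent.BEG.Fun

open Pool.Agent Pool.Agent.BEG
open Set Filter Topology MeasureTheory
open scoped InnerProductSpace ENNReal

noncomputable section

variable {d : ℕ}

/-- `u` is invariant (almost everywhere in `Ω`) under all isometries of `G`. -/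
def InvF (Ω : Set (BE01F.E d)) (G : Set (BE01F.E d ≃ᵢ BE01F.E d)) (u : BE01F.E d → ℝ) : Prop :=
  ∀ g ∈ G, BE01F.AeZero Ω (fun x => u (g x) - u x)

/-- The linear part and the translation part of an isometry. -/
def par (g : BE01F.E d ≃ᵢ BE01F.E d) : (BE01.En d ≃ₗᵢ[ℝ] BE01.En d) × BE01.En d :=
  (g.toRealLinearIsometryEquiv, g 0)

theorem mv_par (g : BE01F.E d ≃ᵢ BE01F.E d) (x : BE01F.E d) : mv (par g) x = g x := by
  show g.toRealLinearIsometryEquiv x + g 0 = g x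
  rw [IsometryEquiv.toRealLinearIsometryEquiv_apply]
  abel

theorem mv_par_fun (g : BE01F.E d ≃ᵢ BE01F.E d) : mv (par g) = fun x => g x :=
  funext (mv_par g)

theorem syms {Ω : Set (BE01F.E d)} {G : Set (BE01F.E d ≃ᵢ BE01F.E d)}
    (hG : ∀ g ∈ G, g '' Ω = Ω) : Syms Ω (par '' G) := by
  rintro _ ⟨g, hg, rfl⟩
  rw [mv_par_fun]
  exact hG g hg

/-- Invariance of the class and of the function. -/
theorem inv_iff {Ω : Set (BE01F.E d)} (hΩ : IsOpen Ω) {G : Set (BE01F.E d ≃ᵢ BE01F.E d)}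
    (hG : ∀ g ∈ G, g '' Ω = Ω) {u : Lp ℝ 2 (BE01.mu Ω)} {f : BE01F.E d → ℝ}
    (hu : u =ᵐ[BE01.mu Ω] f) : Inv Ω (par '' G) u ↔ InvF Ω G f := by
  have hmp : ∀ g ∈ G, MeasurePreserving (fun x => g x) (BE01.mu Ω) (BE01.mu Ω) := by
    intro g hg
    have h := (All.mgp d Ω (par g) hΩ (syms hG (par g) ⟨g, hg, rfl⟩)).1
    rwa [mv_par_fun] at h
  have hc : ∀ g ∈ G, (fun x => u (g x)) =ᵐ[BE01.mu Ω] (fun x => f (g x)) := fun g hg =>
    (hmp g hg).quasiMeasurePreserving.ae_eq_comp hu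
  constructor
  · intro h g hg
    have h1 : (fun x => u (mv (par g) x)) =ᵐ[BE01.mu Ω] u := h (par g) ⟨g, hg, rfl⟩
    show ∀ᵐ x ∂(BE01.mu Ω), f (g x) - f x = 0
    filter_upwards [h1, hc g hg, hu] with x e1 e2 e3
    rw [mv_par] at e1
    rw [← e2, ← e3, e1, sub_self]
  · rintro h _ ⟨g, hg, rfl⟩
    have h1 : ∀ᵐ x ∂(BE01.mu Ω), f (g x) - f x = 0 := h g hg
    filter_upwards [h1, hc g hg, hu] with x e1 e2 e3
    rw [mv_par, e2, e3]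
    exact sub_eq_zero.1 e1

theorem ne_zero_of {Ω : Set (BE01F.E d)} {u : Lp ℝ 2 (BE01.mu Ω)} {f : BE01F.E d → ℝ}
    (hu : u =ᵐ[BE01.mu Ω] f) (hf : ¬ BE01F.AeZero Ω f) : u ≠ 0 := by
  intro h0
  apply hf
  have h1 : u =ᵐ[BE01.mu Ω] 0 := by
    rw [h0]
    exact Lp.coeFn_zero _ _ _
  exact hu.symm.trans h1

theorem not_zero_of {Ω : Set (BE01F.E d)} {u : Lp ℝ 2 (BE01.mu Ω)} (hu : u ≠ 0) :
    ¬ BE01F.AeZero Ω (fun x => u x) := by
  intro h0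
  apply hu
  have h1 : ∀ᵐ x ∂(BE01.mu Ω), u x = 0 := h0
  rw [Lp.eq_zero_iff_ae_eq_zero]
  exact h1

theorem dom_of {Ω : Set (BE01F.E d)} (hΩ : IsOpen Ω) (hb : Bornology.IsBounded Ω)
    {f : BE01F.E d → ℝ} (hf : ¬ BE01F.AeZero Ω f) : BE01.Dom Ω := by
  refine ⟨hΩ, hb, ?_⟩
  rw [nonempty_iff_ne_empty]
  intro h0
  apply hf
  show ∀ᵐ x ∂(volume.restrict Ω), f x = 0
  rw [h0, Measure.restrict_empty]
  simp

/-- **Theorem F with symmetries, formulated with functions.** `Ω` bounded open in `ℝ^d`, `d ≥ 2`, `G`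
a set of isometries of `ℝ^d` mapping `Ω` onto itself, `l` with a `G`-invariant eigenfunction and only
finitely many odd `n` such that `n² l` has a `G`-invariant eigenfunction. -/
theorem sharpG (hd : 2 ≤ d) (Ω : Set (BE01F.E d)) (hΩ : IsOpen Ω)
    (hb : Bornology.IsBounded Ω) (G : Set (BE01F.E d ≃ᵢ BE01F.E d)) (hG : ∀ g ∈ G, g '' Ω = Ω)
    (p : ℕ) (hp : 1 ≤ p) (a l : ℝ) (ha : 0 < a)
    (hl : ∃ φ, BE01F.Eig Ω l φ ∧ ¬ BE01F.AeZero Ω φ ∧ InvF Ω G φ)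
    (hfin : {n : ℕ | Odd n ∧ ∃ u, BE01F.Eig Ω ((n : ℝ) ^ 2 * l) u ∧ ¬ BE01F.AeZero Ω u ∧
      InvF Ω G u}.Finite) :
    BE01F.SharpRate Ω a ((2 * p : ℕ) : ℝ) := by
  obtain ⟨φ, hE, hφ, hi⟩ := hl
  have hDom : BE01.Dom Ω := dom_of hΩ hb hφ
  have hmem : MemLp φ 2 (BE01.mu Ω) := hE.choose_spec.1.1
  have hφe : hmem.toLp φ =ᵐ[BE01.mu Ω] φ := hmem.coeFn_toLp
  refine Helper70BE01Conv.sharp_of (All.fgg d Ω (par '' G) p a l (hmem.toLp φ) hd hDom (syms hG)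
    hp ha ((inv_iff hΩ hG hφe).2 hi) (ne_zero_of hφe hφ) (Helper70BE01Conv.eig_to hE hφe) ?_)
  refine hfin.subset ?_
  rintro n ⟨hn, u, hui, hu, hEu⟩
  exact ⟨hn, fun x => u x, Helper70BE01Conv.eig_of hEu, not_zero_of hu,
    (inv_iff hΩ hG (Eventually.of_forall fun x => rfl)).1 hui⟩

/-- **Theorem F in every dimension, formulated with functions.** -/
theorem sharp (hd : 2 ≤ d) (Ω : Set (BE01F.E d)) (hΩ : IsOpen Ω)
    (hb : Bornology.IsBounded Ω) (p : ℕ) (hp : 1 ≤ p) (a l : ℝ) (ha : 0 < a)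
    (hl : ∃ φ, BE01F.Eig Ω l φ ∧ ¬ BE01F.AeZero Ω φ)
    (hfin : {n : ℕ | Odd n ∧ ∃ u, BE01F.Eig Ω ((n : ℝ) ^ 2 * l) u ∧ ¬ BE01F.AeZero Ω u}.Finite) :
    BE01F.SharpRate Ω a ((2 * p : ℕ) : ℝ) := by
  obtain ⟨φ, hE, hφ⟩ := hl
  refine sharpG hd Ω hΩ hb ∅ (fun g hg => absurd hg (notMem_empty g)) p hp a l ha
    ⟨φ, hE, hφ, fun g hg => absurd hg (notMem_empty g)⟩ (hfin.subset ?_)
  rintro n ⟨hn, u, h1, h2, -⟩
  exact ⟨hn, u, h1, h2⟩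

end

end Pool.Agent.BEG.Fun
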