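import Pool.Agent.Helper64_BEG.Fun
import Pool.Agent.BER.Stmts

/-!
# Squads BEG, BER (MP_be01ff_an): Theorem F_R with symmetries, formulated with functions
-/

set_option autoImplicit false

namespace Pool.Agent.BEG.Fun

open Pool.Agent Pool.Agent.BEG
open Set Filter Topology MeasureTheory
open scoped InnerProductSpace ENNReal

noncomputable section

variable {d : ℕ}

/-- There is no nonzero `G`-invariant eigenfunction with the eigenvalue `l`. -/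
def NoInv (Ω : Set (BE01F.E d)) (G : Set (BE01F.E d ≃ᵢ BE01F.E d)) (l : ℝ) : Prop :=
  ∀ u, BE01F.Eig Ω l u → InvF Ω G u → BE01F.AeZero Ω u

/-- **Theorem F_R with symmetries, formulated with functions.** `Ω` bounded open in `ℝ^d`, `d ≥ 2`, `G`
a set of isometries of `ℝ^d` mapping `Ω` onto itself, `l` with a `G`-invariant eigenfunction, none for
`n² l`, `n = 3, 5, …, 2p+1`, and none for `n² l` for odd `M < n ≤ M + 2p` for arbitrarily large `M`. -/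
theorem sharpR (frg : Pool.Agent.BER.FrgStmt) (hd : 2 ≤ d) (Ω : Set (BE01F.E d)) (hΩ : IsOpen Ω)
    (hb : Bornology.IsBounded Ω) (G : Set (BE01F.E d ≃ᵢ BE01F.E d)) (hG : ∀ g ∈ G, g '' Ω = Ω)
    (p : ℕ) (hp : 1 ≤ p) (a l : ℝ) (ha : 0 < a)
    (hl : ∃ φ, BE01F.Eig Ω l φ ∧ ¬ BE01F.AeZero Ω φ ∧ InvF Ω G φ)
    (h3 : ∀ n : ℕ, Odd n → 3 ≤ n → n ≤ 2 * p + 1 → NoInv Ω G ((n : ℝ) ^ 2 * l))
    (hgap : ∀ J : ℕ, ∃ M, J ≤ M ∧ ∀ n : ℕ, Odd n → M < n → n ≤ M + 2 * p →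
      NoInv Ω G ((n : ℝ) ^ 2 * l)) :
    BE01F.SharpRate Ω a ((2 * p : ℕ) : ℝ) := by
  obtain ⟨φ, hE, hφ, hi⟩ := hl
  have hDom : BE01.Dom Ω := dom_of hΩ hb hφ
  have hmem : MemLp φ 2 (BE01.mu Ω) := hE.choose_spec.1.1
  have hφe : hmem.toLp φ =ᵐ[BE01.mu Ω] φ := hmem.coeFn_toLp
  have key : ∀ n : ℕ, NoInv Ω G ((n : ℝ) ^ 2 * l) → ∀ u : Lp ℝ 2 (BE01.mu Ω),
      Inv Ω (par '' G) u → BE01.IsEig Ω ((n : ℝ) ^ 2 * l) u → u = 0 := by
    intro n hn u hu hEu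
    by_contra h0
    exact not_zero_of h0 (hn (fun x => u x) (Helper70BE01Conv.eig_of hEu)
      ((inv_iff hΩ hG (Eventually.of_forall fun x => rfl)).1 hu))
  refine Helper70BE01Conv.sharp_of (frg d Ω (par '' G) p a l (hmem.toLp φ) hd hDom (syms hG)
    hp ha ((inv_iff hΩ hG hφe).2 hi) (ne_zero_of hφe hφ) (Helper70BE01Conv.eig_to hE hφe)
    (fun n h1 h2 h4 => key n (h3 n h1 h2 h4)) fun J => ?_)
  obtain ⟨M, hM, h⟩ := hgap J
  exact ⟨M, hM, fun n h1 h2 h4 => key n (h n h1 h2 h4)⟩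

end

end Pool.Agent.BEG.Fun
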